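import Pool.Agent.N90.HE.Wts

/-!
# Sign functions on Heisenberg groups times cyclic groups with only long relations
-/

set_option autoImplicit false
set_option linter.unusedSectionVars false

namespace Pool.Agent.N90.HE

open Finset

variable {m n : ℕ} [NeZero n]

/-- Fourier inversion for the unknowns. -/
theorem fX_inv (x : VV m → VV m → ZMod n → ℤ) (a b : VV m) (i : ZMod n) :
    ∑ z, fX x (z + a) z i * sg (b ⬝ᵥ z) = 2 ^ m * x a b i := by
  classical
  have h1 : ∀ z : VV m, fX x (z + a) z i * sg (b ⬝ᵥ z) =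
      ∑ b', x a b' i * sg (z ⬝ᵥ (b' + b)) := by
    intro z
    rw [fX, Finset.sum_mul]
    refine Finset.sum_congr rfl fun b' _ => ?_
    rw [dotProduct_add, sg_add, ← add_assoc, add_self', zero_add, dotProduct_comm b' z,
      dotProduct_comm b z, mul_assoc]
  rw [Finset.sum_congr rfl (fun z _ => h1 z), Finset.sum_comm]
  simp only [← Finset.mul_sum, sum_sg]
  rw [Finset.sum_eq_single b]
  · rw [add_self', if_pos rfl, mul_comm]
  · intro b' _ hb'
    rw [if_neg, mul_zero]
    intro h
    apply hb'
    calc b' = b' + (b + b) := by rw [add_self', add_zero]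
      _ = (b' + b) + b := by abel
      _ = b := by rw [h, zero_add]
  · intro h
    exact absurd (Finset.mem_univ _) h

/-- **Sign functions with only long relations.** -/
theorem core (hm : 1 ≤ m) (hn : Odd n) (hle : 4 * 2 ^ m ≤ n) :
    ∃ e : VV m → VV m → ZMod n → ℤ, (∀ a b i, e a b i = 1 ∨ e a b i = -1) ∧
      (∀ x, Rel e x → (∃ a b i, x a b i ≠ 0) → ∃ a b i, 2 ^ (2 ^ m - 1) ≤ 2 ^ m * |x a b i|) ∧
      ∃ x, Rel e x ∧ (∃ a b i, x a b i ≠ 0) ∧ ∀ a b i, |x a b i| ≤ 2 ^ (2 ^ m - 1) := by
  classical
  obtain ⟨idx, h0⟩ := exists_idx m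
  have hk : 2 ≤ 2 ^ m := by
    calc 2 = 2 ^ 1 := (pow_one 2).symm
      _ ≤ 2 ^ m := Nat.pow_le_pow_right (by norm_num) hm
  -- the sizes of the arcs
  have hbd : ∀ a b, |uu idx a b| ≤ n := fun a b =>
    (abs_uu idx a b).trans (by exact_mod_cast hle)
  have ht : ∀ p : VV m × VV m, ∃ t : ℕ, t ≤ n ∧ (n : ℤ) - 2 * t = uu idx p.1 p.2 := by
    intro p
    obtain ⟨k, hk⟩ := hn
    obtain ⟨l, hl⟩ := uu_odd hm idx h0 p.1 p.2
    have h1 := abs_le.1 (hbd p.1 p.2)
    refine ⟨((k : ℤ) - l).toNat, ?_, ?_⟩
    · omega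
    · omega
  choose t ht1 ht2 using ht
  obtain ⟨T0, hT1, hT2⟩ := exists_arcs (n := n) t ht1 Finset.univ 0
  set T : VV m → VV m → Finset (ZMod n) := fun a b => T0 (a, b) with hT
  set L : ℕ := ∑ p, t p with hL
  have hτ : (1 - gen n) * ∑ a, ∑ b, elS (T a b) = 1 - gen n ^ L := by
    rw [pow_zero, one_mul] at hT2
    rw [← hT2, Fintype.sum_prod_type]
  have hcard : ∀ a b, ((T a b).card : ℤ) = t (a, b) := fun a b => by
    rw [hT1 (a, b) (Finset.mem_univ _)]
  -- the length
  have hLval : (2 : ℤ) * L = 4 ^ m * n + 2 ^ (m + 2) := by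
    have h1 : ∑ p : VV m × VV m, ((n : ℤ) - 2 * t p) = -(2 ^ (m + 2)) := by
      rw [Finset.sum_congr rfl (fun p _ => ht2 p), Fintype.sum_prod_type, sum_uu hm idx h0]
    rw [Finset.sum_sub_distrib, Finset.sum_const, Finset.card_univ, Fintype.card_prod,
      Fintype.card_fun, ZMod.card, Fintype.card_fin, ← Finset.mul_sum, nsmul_eq_mul] at h1
    rw [hL]
    push_cast at h1 ⊢
    have h2 : (4 : ℤ) ^ m = 2 ^ m * 2 ^ m := by
      rw [← mul_pow]
      norm_num
    rw [h2]
    linarith
  have hcop : L.Coprime n := by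
    have h1 : 2 * L = 4 ^ m * n + 2 ^ (m + 2) := by exact_mod_cast hLval
    have h2 : L.gcd n ∣ 2 ^ (m + 2) := by
      have h3 : L.gcd n ∣ 4 ^ m * n + 2 ^ (m + 2) := by
        rw [← h1]
        exact (Nat.gcd_dvd_left L n).mul_left 2
      exact (Nat.dvd_add_right ((Nat.gcd_dvd_right L n).mul_left _)).1 h3
    have h3 : (L.gcd n).Coprime (2 ^ (m + 2)) := by
      refine Nat.Coprime.pow_right _ ?_
      exact Nat.Coprime.coprime_dvd_left (Nat.gcd_dvd_right L n) hn.coprime_two_right
    exact Nat.Coprime.eq_one_of_dvd h3 h2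
  -- the sign function
  set e : VV m → VV m → ZMod n → ℤ := fun a b i => if i ∈ T a b then -1 else 1 with he
  have hsum : ∀ a b (j : ZMod n), ∑ i, e a b (i + j) = uu idx a b := by
    intro a b j
    have h1 : ∑ i, e a b (i + j) = ∑ i, e a b i :=
      Fintype.sum_equiv (Equiv.addRight j) _ _ fun i => rfl
    rw [h1, ← ht2 (a, b), ← hcard a b]
    have h2 : ∀ i : ZMod n, e a b i = 1 - 2 * (if i ∈ T a b then 1 else 0) := by
      intro i
      simp only [he]
      split_ifs <;> norm_num
    rw [Finset.sum_congr rfl (fun i _ => h2 i), Finset.sum_sub_distrib, Finset.sum_const,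
      Finset.card_univ, ZMod.card, ← Finset.mul_sum, Finset.sum_boole]
    simp
  refine ⟨e, fun a b i => ?_, fun x hx hne => ?_, ?_⟩
  · simp only [he]
    split_ifs
    · exact Or.inr rfl
    · exact Or.inl rfl
  · -- long relations
    have hconst := fX_const hn T e x (fun a b i h => by simp only [he]; rw [if_pos h])
      (fun a b i h => by simp only [he]; rw [if_neg h]) hcop hτ hx
    have hker : ∀ y z, fX x y z 0 = 2 ^ (idx z : ℕ) * fX x y 0 0 := by
      intro y
      refine mm_kernel idx h0 (fun z => fX x y z 0) fun w => ?_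
      have h1 := rel_fourier hx y w 0
      have h2 : ∀ z, ∑ i, fE e w z (i + 0) * fX x y z i = 2 ^ m * (mm idx w z * fX x y z 0) := by
        intro z
        rw [Finset.sum_congr rfl (fun i _ => by rw [hconst y z i]), ← Finset.sum_mul]
        have h3 : ∑ i, fE e w z (i + 0) = 2 ^ m * mm idx w z := by
          rw [← uu_fourier idx w z]
          simp only [fE]
          rw [Finset.sum_comm]
          refine Finset.sum_congr rfl fun b _ => ?_
          rw [← Finset.sum_mul, hsum]
        rw [h3, mul_assoc]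
      rw [Finset.sum_congr rfl (fun z _ => h2 z), ← Finset.mul_sum] at h1
      exact (mul_eq_zero.1 h1).resolve_left (by positivity)
    obtain ⟨y, hy⟩ : ∃ y, fX x y 0 0 ≠ 0 := by
      by_contra hcon
      push Not at hcon
      obtain ⟨a, b, i, hab⟩ := hne
      have h1 := fX_inv x a b i
      have h2 : ∀ z, fX x (z + a) z i * sg (b ⬝ᵥ z) = 0 := by
        intro z
        rw [hconst, hker, hcon, mul_zero, zero_mul]
      rw [Finset.sum_eq_zero (fun z _ => h2 z)] at h1
      exact hab ((mul_eq_zero.1 h1.symm).resolve_left (by positivity))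
    obtain ⟨z, hz⟩ := exists_idx_eq idx (j := 2 ^ m - 1) (by omega)
    have h1 : (2 : ℤ) ^ (2 ^ m - 1) ≤ |fX x y z 0| := by
      rw [hker y z, hz, abs_mul, abs_of_pos (by positivity : (0 : ℤ) < 2 ^ (2 ^ m - 1))]
      exact le_mul_of_one_le_right (by positivity) (Int.one_le_abs hy)
    have h2 : |fX x y z 0| ≤ ∑ b, |x (z + y) b 0| := by
      rw [fX]
      refine (Finset.abs_sum_le_sum_abs _ _).trans (le_of_eq ?_)
      refine Finset.sum_congr rfl fun b _ => ?_
      rw [abs_mul, abs_sg, mul_one]
    by_contra hcon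
    push Not at hcon
    have h3 : (2 : ℤ) ^ m * ∑ b, |x (z + y) b 0| < 2 ^ m * 2 ^ (2 ^ m - 1) := by
      rw [Finset.mul_sum]
      calc ∑ b, 2 ^ m * |x (z + y) b 0| < ∑ _b : VV m, (2 : ℤ) ^ (2 ^ m - 1) :=
            Finset.sum_lt_sum_of_nonempty Finset.univ_nonempty fun b _ => hcon _ _ _
        _ = _ := by
            rw [Finset.sum_const, Finset.card_univ, Fintype.card_fun, ZMod.card, Fintype.card_fin,
              nsmul_eq_mul]
            push_cast
            rfl
    have h4 := lt_of_mul_lt_mul_left h3 (by positivity)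
    linarith [h1.trans h2]
  · -- a relation
    refine ⟨fun a b _ => sg (b ⬝ᵥ a) * 2 ^ (idx a : ℕ), fun a' b' i' => ?_, ?_, fun a b i => ?_⟩
    · have h1 : ∀ a, ∑ b : VV m, ∑ i : ZMod n, (sg (b ⬝ᵥ a) * 2 ^ (idx a : ℕ)) * sg (b' ⬝ᵥ a) *
          e (a + a') (b + b') (i + i') = 2 ^ m * (mm idx a' a * 2 ^ (idx a : ℕ)) := by
        intro a
        have h2 : ∀ b : VV m, ∑ i : ZMod n, (sg (b ⬝ᵥ a) * 2 ^ (idx a : ℕ)) * sg (b' ⬝ᵥ a) *
            e (a + a') (b + b') (i + i') = 2 ^ (idx a : ℕ) * (uu idx (a + a') (b + b') *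
              sg ((b + b') ⬝ᵥ a)) := by
          intro b
          rw [← Finset.mul_sum, hsum, add_dotProduct, sg_add]
          ring
        rw [Finset.sum_congr rfl (fun b _ => h2 b), ← Finset.mul_sum]
        have h3 : ∑ b, uu idx (a + a') (b + b') * sg ((b + b') ⬝ᵥ a) =
            ∑ b, uu idx (a + a') b * sg (b ⬝ᵥ a) :=
          Fintype.sum_equiv (Equiv.addRight b') _ _ fun b => rfl
        rw [h3, uu_fourier]
        ring
      rw [Finset.sum_congr rfl (fun a _ => h1 a), ← Finset.mul_sum]
      have h2 : ∑ z, mm idx a' z * 2 ^ (idx z : ℕ) = 0 := by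
        by_cases ha : a' = 0
        · -- the first row
          have h3 : ∀ z, mm idx a' z * 2 ^ (idx z : ℕ) =
              ((fun j : Fin (2 ^ m) => ((if (j : ℕ) = 0 then 0 else 1) -
                2 * (if (j : ℕ) + 1 < 2 ^ m then 1 else 0)) * (2 : ℤ) ^ (j : ℕ)) (idx z)) := by
            intro z
            unfold mm
            rw [if_pos ha]
            have h4 : z = 0 ↔ (idx z : ℕ) = 0 :=
              ⟨fun h => by rw [h, h0], fun h => idx_eq idx (h.trans h0.symm)⟩
            simp only [h4]
          rw [Finset.sum_congr rfl (fun z _ => h3 z), Equiv.sum_comp idx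
            (fun j : Fin (2 ^ m) => ((if (j : ℕ) = 0 then 0 else 1) -
                2 * (if (j : ℕ) + 1 < 2 ^ m then 1 else 0)) * (2 : ℤ) ^ (j : ℕ)),
            Fin.sum_univ_eq_sum_range (fun j : ℕ => ((if j = 0 then 0 else 1) -
                2 * (if j + 1 < 2 ^ m then 1 else 0)) * (2 : ℤ) ^ j) (2 ^ m)]
          obtain ⟨K, hK⟩ : ∃ K, 2 ^ m = K + 1 := ⟨2 ^ m - 1, by omega⟩
          rw [hK]
          have h5 : ∀ j ∈ range (K + 1), ((if j = 0 then 0 else 1) -
              2 * (if j + 1 < K + 1 then 1 else 0)) * (2 : ℤ) ^ j =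
              (if j = 0 then 0 else 2 ^ j) - (if j < K then 2 ^ (j + 1) else 0) := by
            intro j _
            rw [pow_succ]
            have h6 : (j + 1 < K + 1) ↔ j < K := by omega
            simp only [h6]
            split_ifs <;> ring
          rw [Finset.sum_congr rfl h5, Finset.sum_sub_distrib, Finset.sum_range_succ',
            Finset.sum_range_succ (fun j => if j < K then (2 : ℤ) ^ (j + 1) else 0)]
          simp only [if_true, lt_irrefl, if_false, add_zero, Nat.add_eq_zero_iff, one_ne_zero,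
            and_false]
          rw [sub_eq_zero]
          refine Finset.sum_congr rfl fun j hj => ?_
          rw [if_pos (Finset.mem_range.1 hj)]
        · -- the other rows
          obtain ⟨j, hj⟩ : ∃ j, (idx a' : ℕ) = j + 1 := by
            refine ⟨(idx a' : ℕ) - 1, ?_⟩
            have : (idx a' : ℕ) ≠ 0 := fun h => ha (idx_eq idx (h.trans h0.symm))
            omega
          obtain ⟨z', hz'⟩ := exists_idx_eq idx (j := j) (by have := (idx a').2; omega)
          have h3 : ∀ z, mm idx a' z * 2 ^ (idx z : ℕ) = (if (idx a' : ℕ) = 1 then 1 else 2) *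
              ((if z = a' then 2 ^ (idx z : ℕ) else 0) -
                2 * (if z = z' then 2 ^ (idx z : ℕ) else 0)) := by
            intro z
            unfold mm
            rw [if_neg ha]
            have h4 : ((idx z : ℕ) + 1 = idx a') ↔ z = z' := by
              constructor
              · intro h4
                apply idx_eq idx
                omega
              · rintro rfl
                omega
            simp only [h4]
            by_cases h5 : z = a'
            · by_cases h6 : z = z'
              · exfalso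
                rw [h6] at h5
                rw [h5] at hz'
                omega
              · rw [if_pos h5, if_pos h5, if_neg h6, if_neg h6]
                ring
            · by_cases h6 : z = z'
              · rw [if_neg h5, if_neg h5, if_pos h6, if_pos h6]
                ring
              · rw [if_neg h5, if_neg h5, if_neg h6, if_neg h6]
                ring
          rw [Finset.sum_congr rfl (fun z _ => h3 z), ← Finset.mul_sum, Finset.sum_sub_distrib,
            ← Finset.mul_sum, Finset.sum_ite_eq', Finset.sum_ite_eq', if_pos (Finset.mem_univ _),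
            if_pos (Finset.mem_univ _), hj, hz', pow_succ]
          ring
      rw [h2, mul_zero]
    · refine ⟨0, 0, 0, ?_⟩
      change sg ((0 : VV m) ⬝ᵥ 0) * 2 ^ (idx 0 : ℕ) ≠ 0
      rw [dotProduct_zero, sg_zero, one_mul]
      positivity
    · rw [abs_mul, abs_sg, one_mul, abs_of_pos (by positivity)]
      exact pow_le_pow_right₀ (by norm_num) (by have := (idx a).2; omega)

end Pool.Agent.N90.HE
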