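import Pool.Agent.N90.HE.Desc

/-!
# Twisted convolution equations for Heisenberg groups times cyclic groups
-/

set_option autoImplicit false
set_option linter.unusedSectionVars false

namespace Pool.Agent.N90.HE

open Finset

/-- the elementary abelian group -/
abbrev VV (m : ℕ) : Type := Fin m → ZMod 2

/-- the sign character -/
def sg (x : ZMod 2) : ℤ := if x = 0 then 1 else -1

theorem sg_add (x y : ZMod 2) : sg (x + y) = sg x * sg y := by
  revert x y
  decide

theorem sg_sq (x : ZMod 2) : sg x * sg x = 1 := by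
  revert x
  decide

theorem sg_zero : sg 0 = 1 := rfl

theorem sg_eq (x : ZMod 2) : sg x = 1 ∨ sg x = -1 := by
  revert x
  decide

theorem abs_sg (x : ZMod 2) : |sg x| = 1 := by
  revert x
  decide

variable {m : ℕ}

theorem add_self' (a : VV m) : a + a = 0 := by
  funext i
  exact CharTwo.add_self_eq_zero _

/-- Orthogonality of characters. -/
theorem sum_sg (z : VV m) : ∑ b : VV m, sg (b ⬝ᵥ z) = if z = 0 then 2 ^ m else 0 := by
  classical
  split_ifs with h
  · subst h
    simp only [dotProduct_zero, sg_zero, Finset.sum_const, Finset.card_univ, nsmul_eq_mul, mul_one]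
    rw [Fintype.card_fun, ZMod.card, Fintype.card_fin]
    norm_num
  · obtain ⟨i, hi⟩ : ∃ i, z i ≠ 0 := by
      by_contra hcon
      push Not at hcon
      exact h (funext hcon)
    have h1 : ∑ b : VV m, sg (b ⬝ᵥ z) = ∑ b : VV m, sg ((b + Pi.single i 1) ⬝ᵥ z) :=
      (Fintype.sum_equiv (Equiv.addRight (Pi.single i 1 : VV m)) _ _ fun b => rfl).symm
    have h2 : ∀ b : VV m, sg ((b + Pi.single i 1) ⬝ᵥ z) = - sg (b ⬝ᵥ z) := by
      intro b
      rw [add_dotProduct, sg_add, single_one_dotProduct]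
      have h3 : ∀ x : ZMod 2, x ≠ 0 → sg x = -1 := by decide
      rw [h3 _ hi]
      ring
    rw [Finset.sum_congr rfl (fun b _ => h2 b), Finset.sum_neg_distrib] at h1
    omega

variable {n : ℕ} [NeZero n]

/-- the relations: `x` is orthogonal to all translates of `e` -/
def Rel (e x : VV m → VV m → ZMod n → ℤ) : Prop :=
  ∀ (a' b' : VV m) (i' : ZMod n),
    ∑ a, ∑ b, ∑ i, x a b i * sg (b' ⬝ᵥ a) * e (a + a') (b + b') (i + i') = 0

/-- the partial Fourier transform of the weights -/
def fE (e : VV m → VV m → ZMod n → ℤ) (w z : VV m) (i : ZMod n) : ℤ :=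
  ∑ b, e (z + w) b i * sg (b ⬝ᵥ z)

/-- the partial Fourier transform of the unknowns -/
def fX (x : VV m → VV m → ZMod n → ℤ) (y z : VV m) (i : ZMod n) : ℤ :=
  ∑ b, x (z + y) b i * sg (b ⬝ᵥ z)

theorem rel_fourier {e x : VV m → VV m → ZMod n → ℤ} (h : Rel e x) (y w : VV m) (i' : ZMod n) :
    ∑ z, ∑ i, fE e w z (i + i') * fX x y z i = 0 := by
  have h1 : ∑ b' : VV m, sg (b' ⬝ᵥ y) * (∑ a, ∑ b, ∑ i, x a b i * sg (b' ⬝ᵥ a) *
      e (a + (w + y)) (b + b') (i + i')) = 0 :=
    Finset.sum_eq_zero fun b' _ => by rw [h (w + y) b' i', mul_zero]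
  rw [← h1]
  have h2 : ∀ b' : VV m, sg (b' ⬝ᵥ y) * (∑ a, ∑ b, ∑ i, x a b i * sg (b' ⬝ᵥ a) *
      e (a + (w + y)) (b + b') (i + i')) = ∑ z, ∑ i, ∑ b, x (z + y) b i *
        (sg (b' ⬝ᵥ z) * e (z + w) (b + b') (i + i')) := by
    intro b'
    rw [Finset.mul_sum]
    refine (Fintype.sum_equiv (Equiv.addRight y) _ _ fun z => ?_).symm
    rw [Finset.sum_comm, Finset.mul_sum]
    refine Finset.sum_congr rfl fun b _ => ?_
    rw [Finset.mul_sum]
    refine Finset.sum_congr rfl fun i _ => ?_
    rw [Equiv.coe_addRight, dotProduct_add, sg_add]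
    have e1 : z + y + (w + y) = z + w := by
      calc z + y + (w + y) = z + w + (y + y) := by abel
        _ = z + w := by rw [add_self', add_zero]
    rw [e1]
    have e2 := sg_sq (b' ⬝ᵥ y)
    linear_combination (-(x (z + y) b i * sg (b' ⬝ᵥ z) * e (z + w) (b + b') (i + i'))) * e2
  rw [Finset.sum_congr rfl (fun b' _ => h2 b')]
  refine Eq.trans ?_ Finset.sum_comm
  refine Finset.sum_congr rfl fun z _ => ?_
  refine Eq.trans ?_ Finset.sum_comm
  refine Finset.sum_congr rfl fun i _ => ?_
  refine Eq.trans ?_ Finset.sum_comm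
  rw [fX, Finset.mul_sum]
  refine Finset.sum_congr rfl fun b _ => ?_
  rw [← Finset.mul_sum, fE]
  have h3 : ∑ b' : VV m, sg (b' ⬝ᵥ z) * e (z + w) (b + b') (i + i') =
      sg (b ⬝ᵥ z) * ∑ β : VV m, e (z + w) β (i + i') * sg (β ⬝ᵥ z) := by
    rw [Finset.mul_sum]
    refine Fintype.sum_equiv (Equiv.addLeft b) _ _ fun b' => ?_
    rw [Equiv.coe_addLeft, add_dotProduct, sg_add]
    have e2 := sg_sq (b ⬝ᵥ z)
    linear_combination (-(sg (b' ⬝ᵥ z) * e (z + w) (b + b') (i + i'))) * e2
  rw [h3]
  ring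

/-- the element of the group ring with given coefficients -/
noncomputable def el (f : ZMod n → ℤ) : GR n := ∑ i, AddMonoidAlgebra.single i (f i)

/-- the element of the group ring with given coefficients, inverted -/
noncomputable def el' (f : ZMod n → ℤ) : GR n := ∑ i, AddMonoidAlgebra.single (-i) (f i)

theorem coeff_el (f : ZMod n → ℤ) (j : ZMod n) : (el f).coeff j = f j := by
  rw [el, AddMonoidAlgebra.coeff_sum, Finsupp.finsetSum_apply]
  simp only [AddMonoidAlgebra.coeff_single, Finsupp.single_apply]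
  rw [Finset.sum_ite_eq' Finset.univ j, if_pos (Finset.mem_univ _)]

theorem coeff_el' (f : ZMod n → ℤ) (j : ZMod n) : (el' f).coeff j = f (-j) := by
  rw [el', AddMonoidAlgebra.coeff_sum, Finsupp.finsetSum_apply]
  simp only [AddMonoidAlgebra.coeff_single, Finsupp.single_apply]
  rw [Finset.sum_eq_single (-j)]
  · rw [neg_neg, if_pos rfl]
  · intro i _ hi
    rw [if_neg]
    intro h
    apply hi
    rw [← h, neg_neg]
  · intro h
    exact absurd (Finset.mem_univ _) h

theorem coeff_mul (f h : ZMod n → ℤ) (j : ZMod n) :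
    (el f * el' h).coeff j = ∑ i, f (i + j) * h i := by
  rw [el', Finset.mul_sum, AddMonoidAlgebra.coeff_sum, Finsupp.finsetSum_apply]
  refine Finset.sum_congr rfl fun i _ => ?_
  rw [AddMonoidAlgebra.coeff_mul_single_apply, coeff_el, neg_neg, add_comm j i]

theorem norm_eq : ∑ i ∈ range n, gen n ^ i = el (fun _ => 1) := by
  rw [el]
  simp only [gen_pow]
  refine Finset.sum_bij' (fun i _ => (i : ZMod n)) (fun i _ => i.val) ?_ ?_ ?_ ?_ ?_
  · intro i _
    exact Finset.mem_univ _
  · intro i _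
    exact Finset.mem_range.2 (ZMod.val_lt i)
  · intro i hi
    exact ZMod.val_cast_of_lt (Finset.mem_range.1 hi)
  · intro i _
    exact ZMod.natCast_zmod_val i
  · intro i _
    rfl

theorem norm_mul_gen : (∑ i ∈ range n, gen n ^ i) * (1 - gen n) = 0 := by
  have h := geom_sum_mul (gen n) n
  rw [gen_pow_n, sub_self] at h
  linear_combination -h

/-- A function whose element is killed by `1 - g` is constant. -/
theorem const_of_mul (f : ZMod n → ℤ) (h : (1 - gen n) * el' f = 0) (i : ZMod n) : f i = f 0 := by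
  have h1 : ∀ j : ZMod n, f (j + 1) = f j := by
    intro j
    have h2 := congrArg (fun y => AddMonoidAlgebra.coeff y (-j)) h
    rw [sub_mul, one_mul] at h2
    simp only [AddMonoidAlgebra.coeff_sub, AddMonoidAlgebra.coeff_zero, Finsupp.coe_sub,
      Finsupp.coe_zero, Pi.sub_apply, Pi.zero_apply] at h2
    rw [gen, AddMonoidAlgebra.coeff_single_mul_apply, coeff_el', coeff_el', one_mul] at h2
    have h3 : -(-1 + -j) = j + 1 := by ring
    rw [h3, neg_neg] at h2
    linarith
  have h2 : ∀ k : ℕ, f (k : ZMod n) = f 0 := by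
    intro k
    induction k with
    | zero => rw [Nat.cast_zero]
    | succ k ih => rw [Nat.cast_succ, h1, ih]
  rw [← ZMod.natCast_zmod_val i]
  exact h2 _

/-- the element of a set of exponents -/
noncomputable def elS (T : Finset (ZMod n)) : GR n := ∑ i ∈ T, AddMonoidAlgebra.single i 1

open Classical in
theorem el_sign (T : Finset (ZMod n)) :
    el (fun i => if i ∈ T then (-1 : ℤ) else 1) = (∑ i ∈ range n, gen n ^ i) - 2 * elS T := by
  rw [norm_eq, el, el, elS, Finset.mul_sum]
  have h1 : ∑ i ∈ T, (2 : GR n) * AddMonoidAlgebra.single i 1 =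
      ∑ i, if i ∈ T then (2 : GR n) * AddMonoidAlgebra.single i 1 else 0 := by
    rw [← Finset.sum_filter]
    congr 1
    ext i
    simp
  rw [h1, ← Finset.sum_sub_distrib]
  refine Finset.sum_congr rfl fun i _ => ?_
  split_ifs with h
  · rw [two_mul, sub_add_eq_sub_sub, sub_self, zero_sub]
    ext j
    simp
  · rw [sub_zero]

/-- **The unknowns are constant along the cyclic group.** -/
theorem fX_const (hn : Odd n) (T : VV m → VV m → Finset (ZMod n))
    (e x : VV m → VV m → ZMod n → ℤ) (he : ∀ a b i, i ∈ T a b → e a b i = -1)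
    (he' : ∀ a b i, i ∉ T a b → e a b i = 1) {L : ℕ} (hL : L.Coprime n)
    (hτ : (1 - gen n) * ∑ a, ∑ b, elS (T a b) = 1 - gen n ^ L)
    (hrel : Rel e x) (y z : VV m) (i : ZMod n) : fX x y z i = fX x y z 0 := by
  classical
  have hel : ∀ a b, el (e a b) = (∑ i ∈ range n, gen n ^ i) - 2 * elS (T a b) := by
    intro a b
    rw [← el_sign]
    congr 1
    funext i
    split_ifs with h
    · exact he a b i h
    · exact he' a b i h
  have hlin : ∀ (w z : VV m), el (fE e w z) = ∑ b, (sg (b ⬝ᵥ z) : GR n) * el (e (z + w) b) := by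
    intro w z
    ext j
    rw [coeff_el, AddMonoidAlgebra.coeff_sum, Finsupp.finsetSum_apply, fE]
    refine Finset.sum_congr rfl fun b _ => ?_
    rcases sg_eq (b ⬝ᵥ z) with h | h
    · rw [h, Int.cast_one, one_mul, coeff_el, mul_one]
    · rw [h, Int.cast_neg, Int.cast_one, neg_one_mul, AddMonoidAlgebra.coeff_neg, Finsupp.neg_apply,
        coeff_el]
      ring
  have h0 : ∀ w : VV m, ∑ z, el (fE e w z) * el' (fX x y z) = 0 := by
    intro w
    ext j
    rw [AddMonoidAlgebra.coeff_sum, Finsupp.finsetSum_apply]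
    rw [Finset.sum_congr rfl (fun z _ => coeff_mul _ _ j)]
    exact rel_fourier hrel y w j
  refine const_of_mul _ ?_ i
  refine eq_zero_of_system (V := VV m) add_self' hn hL
    (fun w z => ∑ b, (sg (b ⬝ᵥ z) : GR n) * elS (T (z + w) b)) (fun a => ∑ b, elS (T a b))
    (fun w z => ?_) hτ (fun z => (1 - gen n) * el' (fX x y z)) (fun w => ?_) (fun z => ?_) z
  · rw [← Finset.sum_sub_distrib]
    refine Finset.dvd_sum fun b _ => ?_
    rcases sg_eq (b ⬝ᵥ z) with h | h
    · rw [h, Int.cast_one, one_mul, sub_self]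
      exact dvd_zero _
    · rw [h, Int.cast_neg, Int.cast_one]
      exact ⟨-elS (T (z + w) b), by ring⟩
  · apply two_mul_inj
    have h1 := h0 w
    have h2 : ∑ z, (1 - gen n) * (el (fE e w z) * el' (fX x y z)) = 0 := by
      rw [← Finset.mul_sum, h1, mul_zero]
    have h3 : ∀ z, (1 - gen n) * (el (fE e w z) * el' (fX x y z)) =
        -(2 * ((∑ b, (sg (b ⬝ᵥ z) : GR n) * elS (T (z + w) b)) *
          ((1 - gen n) * el' (fX x y z)))) := by
      intro z
      rw [hlin w z]
      have h4 : ∑ b, (sg (b ⬝ᵥ z) : GR n) * el (e (z + w) b) =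
          (∑ b : VV m, (sg (b ⬝ᵥ z) : GR n)) * (∑ i ∈ range n, gen n ^ i) -
            2 * ∑ b, (sg (b ⬝ᵥ z) : GR n) * elS (T (z + w) b) := by
        rw [Finset.sum_mul, Finset.mul_sum, ← Finset.sum_sub_distrib]
        refine Finset.sum_congr rfl fun b _ => ?_
        rw [hel]
        ring
      rw [h4]
      have h5 := norm_mul_gen (n := n)
      linear_combination ((∑ b : VV m, (sg (b ⬝ᵥ z) : GR n)) * el' (fX x y z)) * h5
    rw [Finset.sum_congr rfl (fun z _ => h3 z), Finset.sum_neg_distrib, neg_eq_zero,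
      ← Finset.mul_sum] at h2
    exact h2
  · rw [← mul_assoc, norm_mul_gen, zero_mul]

end Pool.Agent.N90.HE
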