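import Pool.Agent.N90.HE.Wts

/-!
# Weights with only long relations: the labelling by a finite field
-/

set_option autoImplicit false
set_option linter.unusedSectionVars false

namespace Pool.Agent.N90.HE

open Finset

section uu

variable {m : ℕ}

/-- the sums of the weights of a matrix -/
def UU (mu : VV m → VV m → ℤ) (a b : VV m) : ℤ := ∑ z, mu (z + a) z * sg (b ⬝ᵥ z)

/-- Fourier inversion. -/
theorem UU_fourier (mu : VV m → VV m → ℤ) (w z : VV m) :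
    ∑ b, UU mu (z + w) b * sg (b ⬝ᵥ z) = 2 ^ m * mu w z := by
  classical
  have h1 : ∀ b : VV m, UU mu (z + w) b * sg (b ⬝ᵥ z) =
      ∑ z', mu (z' + (z + w)) z' * sg (b ⬝ᵥ (z' + z)) := by
    intro b
    rw [UU, Finset.sum_mul]
    refine Finset.sum_congr rfl fun z' _ => ?_
    rw [dotProduct_add, sg_add, mul_assoc]
  rw [Finset.sum_congr rfl (fun b _ => h1 b), Finset.sum_comm]
  simp only [← Finset.mul_sum, sum_sg]
  rw [Finset.sum_eq_single z]
  · rw [add_self', if_pos rfl, ← add_assoc, add_self', zero_add, mul_comm]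
  · intro z' _ hz'
    rw [if_neg, mul_zero]
    intro h
    apply hz'
    calc z' = z' + (z + z) := by rw [add_self', add_zero]
      _ = (z' + z) + z := by abel
      _ = z := by rw [h, zero_add]
  · intro h
    exact absurd (Finset.mem_univ _) h

theorem sum_UU (mu : VV m → VV m → ℤ) : ∑ a, ∑ b, UU mu a b = 2 ^ m * ∑ w, mu w 0 := by
  rw [Finset.mul_sum]
  refine Finset.sum_congr rfl fun a _ => ?_
  have h := UU_fourier mu a 0
  rw [← h]
  refine Finset.sum_congr rfl fun b _ => ?_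
  rw [dotProduct_zero, sg_zero, mul_one, zero_add]

end uu

section field

variable {m : ℕ} {F : Type} [Field F] [Fintype F] [DecidableEq F] [CharP F 2] (e : VV m ≃+ F)
  (θ : F) (t : ℤ)

/-- the matrix over the field -/
def mF (w z : F) : ℤ :=
  (if w = 0 ∧ z = 0 then 1 else 0) + (if w = 0 ∧ z = θ + 1 then 1 else 0) +
    t * (if w = θ ^ 2 * z ∧ z ≠ 0 ∧ θ * z ≠ 1 then 1 else 0) -
    (if w = θ * z ∧ z ≠ 0 ∧ z ≠ 1 then 1 else 0)

/-- the diagonal sums -/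
theorem diag_sum (h1 : θ + 1 ≠ 0) (s : F → ℤ) (a : F) :
    ∑ z, mF θ t (z + a) z * s z =
      (if a = 0 then s 0 else 0) + (if a = θ + 1 then s (θ + 1) else 0) +
      t * (if (θ ^ 2 + 1)⁻¹ * a ≠ 0 ∧ θ * ((θ ^ 2 + 1)⁻¹ * a) ≠ 1 then s ((θ ^ 2 + 1)⁻¹ * a) else 0) -
      (if (θ + 1)⁻¹ * a ≠ 0 ∧ (θ + 1)⁻¹ * a ≠ 1 then s ((θ + 1)⁻¹ * a) else 0) := by
  have hsq : θ ^ 2 + 1 = (θ + 1) ^ 2 := by
    rw [CharTwo.add_sq, one_pow]
  have h2 : θ ^ 2 + 1 ≠ 0 := by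
    rw [hsq]
    exact pow_ne_zero _ h1
  have e0 : ∀ z : F, (z + a = 0 ∧ z = 0) ↔ (z = 0 ∧ a = 0) := by
    intro z
    constructor
    · rintro ⟨h3, rfl⟩
      exact ⟨rfl, by rwa [zero_add] at h3⟩
    · rintro ⟨rfl, rfl⟩
      exact ⟨add_zero _, rfl⟩
  have e1 : ∀ z : F, (z + a = 0 ∧ z = θ + 1) ↔ (z = θ + 1 ∧ a = θ + 1) := by
    intro z
    constructor
    · rintro ⟨h3, h4⟩
      refine ⟨h4, ?_⟩
      rw [← h4]
      exact (CharTwo.add_eq_zero.1 h3).symm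
    · rintro ⟨h3, h4⟩
      refine ⟨?_, h3⟩
      rw [h3, h4, CharTwo.add_self_eq_zero]
  have e2 : ∀ z : F, (z + a = θ ^ 2 * z ∧ z ≠ 0 ∧ θ * z ≠ 1) ↔
      (z = (θ ^ 2 + 1)⁻¹ * a ∧ ((θ ^ 2 + 1)⁻¹ * a ≠ 0 ∧ θ * ((θ ^ 2 + 1)⁻¹ * a) ≠ 1)) := by
    intro z
    have h3 : z + a = θ ^ 2 * z ↔ z = (θ ^ 2 + 1)⁻¹ * a := by
      rw [eq_inv_mul_iff_mul_eq₀ h2, add_mul, one_mul]
      constructor
      · intro h4
        rw [← h4, add_comm z a, add_assoc, CharTwo.add_self_eq_zero, add_zero]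
      · intro h4
        rw [← h4, add_comm, add_assoc, CharTwo.add_self_eq_zero, add_zero]
    rw [h3]
    constructor
    · rintro ⟨h4, h5, h6⟩
      rw [← h4]
      exact ⟨rfl, h5, h6⟩
    · rintro ⟨h4, h5, h6⟩
      rw [← h4] at h5 h6
      exact ⟨h4, h5, h6⟩
  have e3 : ∀ z : F, (z + a = θ * z ∧ z ≠ 0 ∧ z ≠ 1) ↔
      (z = (θ + 1)⁻¹ * a ∧ ((θ + 1)⁻¹ * a ≠ 0 ∧ (θ + 1)⁻¹ * a ≠ 1)) := by
    intro z
    have h3 : z + a = θ * z ↔ z = (θ + 1)⁻¹ * a := by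
      rw [eq_inv_mul_iff_mul_eq₀ h1, add_mul, one_mul]
      constructor
      · intro h4
        rw [← h4, add_comm z a, add_assoc, CharTwo.add_self_eq_zero, add_zero]
      · intro h4
        rw [← h4, add_comm, add_assoc, CharTwo.add_self_eq_zero, add_zero]
    rw [h3]
    constructor
    · rintro ⟨h4, h5, h6⟩
      rw [← h4]
      exact ⟨rfl, h5, h6⟩
    · rintro ⟨h4, h5, h6⟩
      rw [← h4] at h5 h6
      exact ⟨h4, h5, h6⟩
  have key : ∀ (P : Prop) [Decidable P] (z₀ : F),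
      ∑ z, (if z = z₀ ∧ P then (1 : ℤ) else 0) * s z = if P then s z₀ else 0 := by
    intro P _ z₀
    by_cases hP : P
    · simp [hP]
    · simp [hP]
  have h3 : ∀ z, mF θ t (z + a) z * s z = (if z = 0 ∧ a = 0 then (1 : ℤ) else 0) * s z +
      (if z = θ + 1 ∧ a = θ + 1 then (1 : ℤ) else 0) * s z +
      t * ((if z = (θ ^ 2 + 1)⁻¹ * a ∧ ((θ ^ 2 + 1)⁻¹ * a ≠ 0 ∧ θ * ((θ ^ 2 + 1)⁻¹ * a) ≠ 1) then
        (1 : ℤ) else 0) * s z) -
      (if z = (θ + 1)⁻¹ * a ∧ ((θ + 1)⁻¹ * a ≠ 0 ∧ (θ + 1)⁻¹ * a ≠ 1) then (1 : ℤ) else 0) *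
        s z := by
    intro z
    unfold mF
    simp only [e0, e1, e2, e3]
    ring
  rw [Finset.sum_congr rfl (fun z _ => h3 z), Finset.sum_sub_distrib, Finset.sum_add_distrib,
    Finset.sum_add_distrib, ← Finset.mul_sum, key, key, key, key]

/-- the sums of the weights are `±1` or `± t ± 1` -/
theorem diag_sum_eq (h1 : θ + 1 ≠ 0) (s : F → ℤ) (hs : ∀ z, s z = 1 ∨ s z = -1) (a : F) :
    ∃ x y : ℤ, (x = 0 ∨ x = 1 ∨ x = -1) ∧ (y = 1 ∨ y = -1) ∧
      ∑ z, mF θ t (z + a) z * s z = t * x + y := by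
  have h3 : ((θ + 1)⁻¹ * a = 0) ↔ a = 0 := by
    rw [inv_mul_eq_iff_eq_mul₀ h1, mul_zero]
  have h4 : ((θ + 1)⁻¹ * a = 1) ↔ a = θ + 1 := by
    rw [inv_mul_eq_iff_eq_mul₀ h1, mul_one]
  refine ⟨if (θ ^ 2 + 1)⁻¹ * a ≠ 0 ∧ θ * ((θ ^ 2 + 1)⁻¹ * a) ≠ 1 then s ((θ ^ 2 + 1)⁻¹ * a) else 0,
    (if a = 0 then s 0 else 0) + (if a = θ + 1 then s (θ + 1) else 0) -
      (if (θ + 1)⁻¹ * a ≠ 0 ∧ (θ + 1)⁻¹ * a ≠ 1 then s ((θ + 1)⁻¹ * a) else 0), ?_, ?_, ?_⟩
  · split_ifs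
    · exact Or.inr (hs _)
    · exact Or.inl rfl
  · simp only [ne_eq, h3, h4]
    by_cases ha : a = 0
    · have ha' : ¬ (a = θ + 1) := by
        rw [ha]
        exact fun h => h1 h.symm
      rw [if_pos ha, if_neg ha', if_neg (fun h => h.1 ha)]
      rcases hs 0 with h | h <;> rw [h] <;> norm_num
    · by_cases ha' : a = θ + 1
      · rw [if_neg ha, if_pos ha', if_neg (fun h => h.2 ha')]
        rcases hs (θ + 1) with h | h <;> rw [h] <;> norm_num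
      · rw [if_neg ha, if_neg ha', if_pos ⟨ha, ha'⟩]
        rcases hs ((θ + 1)⁻¹ * a) with h | h <;> rw [h] <;> norm_num
  · rw [diag_sum θ t h1 s a]
    ring

/-- the sum of the first column -/
theorem col_zero (h1 : θ + 1 ≠ 0) : ∑ w, mF θ t w 0 = 1 := by
  have h2 : ∀ w, mF θ t w 0 = if w = 0 then 1 else 0 := by
    intro w
    unfold mF
    have h3 : ¬ ((0 : F) = θ + 1) := fun h => h1 h.symm
    simp [h3]
  rw [Finset.sum_congr rfl (fun w _ => h2 w), Finset.sum_ite_eq', if_pos (Finset.mem_univ _)]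

/-- the first row -/
theorem row_zero (h0 : θ ≠ 0) (X : F → ℤ) : ∑ z, mF θ t 0 z * X z = X 0 + X (θ + 1) := by
  have h2 : ∀ z, mF θ t 0 z * X z = (if z = 0 then X z else 0) + (if z = θ + 1 then X z else 0) := by
    intro z
    unfold mF
    have h3 : ¬ ((0 : F) = θ ^ 2 * z ∧ z ≠ 0 ∧ θ * z ≠ 1) := by
      rintro ⟨h4, h5, _⟩
      exact mul_ne_zero (pow_ne_zero 2 h0) h5 h4.symm
    have h4 : ¬ ((0 : F) = θ * z ∧ z ≠ 0 ∧ z ≠ 1) := by
      rintro ⟨h4, h5, _⟩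
      exact mul_ne_zero h0 h5 h4.symm
    rw [if_neg h3, if_neg h4]
    simp only [true_and, mul_zero, add_zero, sub_zero, add_mul, ite_mul, one_mul, zero_mul]
  rw [Finset.sum_congr rfl (fun z _ => h2 z), Finset.sum_add_distrib, Finset.sum_ite_eq',
    Finset.sum_ite_eq', if_pos (Finset.mem_univ _), if_pos (Finset.mem_univ _)]

/-- the other rows -/
theorem row_succ (h0 : θ ≠ 0) (X : F → ℤ) (u : F) (hu : u ≠ 0) :
    ∑ z, mF θ t (θ ^ 2 * u) z * X z = if θ * u = 1 then 0 else t * X u - X (θ * u) := by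
  have hw : θ ^ 2 * u ≠ 0 := mul_ne_zero (pow_ne_zero 2 h0) hu
  have h2 : ∀ z, mF θ t (θ ^ 2 * u) z * X z =
      t * (if z = u then (if θ * u = 1 then 0 else X z) else 0) -
        (if z = θ * u then (if θ * u = 1 then 0 else X z) else 0) := by
    intro z
    unfold mF
    have h3 : (θ ^ 2 * u = θ ^ 2 * z ∧ z ≠ 0 ∧ θ * z ≠ 1) ↔ (z = u ∧ θ * u ≠ 1) := by
      constructor
      · rintro ⟨h4, h5, h6⟩
        have h7 := mul_left_cancel₀ (pow_ne_zero 2 h0) h4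
        exact ⟨h7.symm, by rwa [h7]⟩
      · rintro ⟨rfl, h5⟩
        exact ⟨rfl, hu, h5⟩
    have h4 : (θ ^ 2 * u = θ * z ∧ z ≠ 0 ∧ z ≠ 1) ↔ (z = θ * u ∧ θ * u ≠ 1) := by
      constructor
      · rintro ⟨h4, h5, h6⟩
        have h7 : θ * u = z := by
          apply mul_left_cancel₀ h0
          rw [← h4]
          ring
        exact ⟨h7.symm, by rwa [h7]⟩
      · rintro ⟨rfl, h5⟩
        exact ⟨by ring, mul_ne_zero h0 hu, h5⟩
    rw [if_neg (fun h => hw h.1), if_neg (fun h => hw h.1)]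
    simp only [h3, h4]
    by_cases h5 : θ * u = 1
    · rw [if_neg (fun h => h.2 h5), if_neg (fun h => h.2 h5), if_pos h5]
      simp
    · rw [if_neg h5]
      simp only [ne_eq, h5, not_false_eq_true, and_true]
      by_cases h6 : z = u
      · by_cases h7 : z = θ * u
        · rw [if_pos h6, if_pos h7, if_pos h6, if_pos h7]
          ring
        · rw [if_pos h6, if_neg h7, if_pos h6, if_neg h7]
          ring
      · by_cases h7 : z = θ * u
        · rw [if_neg h6, if_pos h7, if_neg h6, if_pos h7]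
          ring
        · rw [if_neg h6, if_neg h7, if_neg h6, if_neg h7]
          ring
  rw [Finset.sum_congr rfl (fun z _ => h2 z), Finset.sum_sub_distrib, ← Finset.mul_sum,
    Finset.sum_ite_eq', Finset.sum_ite_eq', if_pos (Finset.mem_univ _),
    if_pos (Finset.mem_univ _)]
  split_ifs
  · ring
  · ring

end field

end Pool.Agent.N90.HE
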