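import Pool.Agent.N90.HE.Core
import Pool.Agent.N90.HE.Field

/-!
# Sign functions on Heisenberg groups times cyclic groups of bounded order with only long relations
-/

set_option autoImplicit false
set_option linter.unusedSectionVars false

namespace Pool.Agent.N90.HE

open Finset

section gen

variable {m n : ℕ} [NeZero n]

/-- **Sign functions from a matrix.** -/
theorem core_gen (hn : Odd n) (mu : VV m → VV m → ℤ) (kap : VV m → ℤ) (B : ℤ) (hB : 0 < B)
    (hodd : ∀ a b, Odd (UU mu a b)) (hle : ∀ a b, |UU mu a b| ≤ n) (hcol : ∑ w, mu w 0 = 1)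
    (hkap : ∀ w, ∑ z, mu w z * kap z = 0) (z0 z1 : VV m) (hz1 : |kap z1| = B)
    (hkB : ∀ z, |kap z| ≤ B)
    (hker : ∀ X : VV m → ℤ, (∀ w, ∑ z, mu w z * X z = 0) → ∀ z, X z = kap z * X z0) :
    ∃ e : VV m → VV m → ZMod n → ℤ, (∀ a b i, e a b i = 1 ∨ e a b i = -1) ∧
      (∀ x, Rel e x → (∃ a b i, x a b i ≠ 0) → ∃ a b i, B ≤ 2 ^ m * |x a b i|) ∧
      ∃ x, Rel e x ∧ (∃ a b i, x a b i ≠ 0) ∧ ∀ a b i, |x a b i| ≤ B := by
  classical
  have ht : ∀ p : VV m × VV m, ∃ t : ℕ, t ≤ n ∧ (n : ℤ) - 2 * t = UU mu p.1 p.2 := by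
    intro p
    obtain ⟨k, hk⟩ := hn
    obtain ⟨l, hl⟩ := hodd p.1 p.2
    have h1 := abs_le.1 (hle p.1 p.2)
    refine ⟨((k : ℤ) - l).toNat, ?_, ?_⟩
    · omega
    · omega
  choose t ht1 ht2 using ht
  obtain ⟨T0, hT1, hT2⟩ := exists_arcs (n := n) t ht1 Finset.univ 0
  set T : VV m → VV m → Finset (ZMod n) := fun a b => T0 (a, b) with hT
  set L : ℕ := ∑ p, t p with hL
  have hτ : (1 - gen n) * ∑ a, ∑ b, elS (T a b) = 1 - gen n ^ L := by
    rw [pow_zero, one_mul] at hT2
    rw [← hT2, Fintype.sum_prod_type]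
  have hcard : ∀ a b, ((T a b).card : ℤ) = t (a, b) := fun a b => by
    rw [hT1 (a, b) (Finset.mem_univ _)]
  -- the length
  have hLval : (2 : ℤ) * L + 2 ^ m = 4 ^ m * n := by
    have h1 : ∑ p : VV m × VV m, ((n : ℤ) - 2 * t p) = 2 ^ m := by
      rw [Finset.sum_congr rfl (fun p _ => ht2 p), Fintype.sum_prod_type, sum_UU, hcol, mul_one]
    rw [Finset.sum_sub_distrib, Finset.sum_const, Finset.card_univ, Fintype.card_prod,
      Fintype.card_fun, ZMod.card, Fintype.card_fin, ← Finset.mul_sum, nsmul_eq_mul] at h1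
    rw [hL]
    push_cast at h1 ⊢
    have h2 : (4 : ℤ) ^ m = 2 ^ m * 2 ^ m := by
      rw [← mul_pow]
      norm_num
    rw [h2]
    linarith
  have hcop : L.Coprime n := by
    have h1 : 2 * L + 2 ^ m = 4 ^ m * n := by exact_mod_cast hLval
    have h2 : L.gcd n ∣ 2 ^ m := by
      have h3 : L.gcd n ∣ 2 * L + 2 ^ m := by
        rw [h1]
        exact (Nat.gcd_dvd_right L n).mul_left _
      exact (Nat.dvd_add_right ((Nat.gcd_dvd_left L n).mul_left _)).1 h3
    have h3 : (L.gcd n).Coprime (2 ^ m) := by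
      refine Nat.Coprime.pow_right _ ?_
      exact Nat.Coprime.coprime_dvd_left (Nat.gcd_dvd_right L n) hn.coprime_two_right
    exact Nat.Coprime.eq_one_of_dvd h3 h2
  -- the sign function
  set e : VV m → VV m → ZMod n → ℤ := fun a b i => if i ∈ T a b then -1 else 1 with he
  have hsum : ∀ a b (j : ZMod n), ∑ i, e a b (i + j) = UU mu a b := by
    intro a b j
    have h1 : ∑ i, e a b (i + j) = ∑ i, e a b i :=
      Fintype.sum_equiv (Equiv.addRight j) _ _ fun i => rfl
    rw [h1, ← ht2 (a, b), ← hcard a b]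
    have h2 : ∀ i : ZMod n, e a b i = 1 - 2 * (if i ∈ T a b then 1 else 0) := by
      intro i
      simp only [he]
      split_ifs <;> norm_num
    rw [Finset.sum_congr rfl (fun i _ => h2 i), Finset.sum_sub_distrib, Finset.sum_const,
      Finset.card_univ, ZMod.card, ← Finset.mul_sum, Finset.sum_boole]
    simp
  have hkz1 : kap z1 ≠ 0 := by
    intro h0
    rw [h0, abs_zero] at hz1
    exact hB.ne hz1
  refine ⟨e, fun a b i => ?_, fun x hx hne => ?_, ?_⟩
  · simp only [he]
    split_ifs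
    · exact Or.inr rfl
    · exact Or.inl rfl
  · -- long relations
    have hconst := fX_const hn T e x (fun a b i h => by simp only [he]; rw [if_pos h])
      (fun a b i h => by simp only [he]; rw [if_neg h]) hcop hτ hx
    have hkery : ∀ y z, fX x y z 0 = kap z * fX x y z0 0 := by
      intro y
      refine hker (fun z => fX x y z 0) fun w => ?_
      have h1 := rel_fourier hx y w 0
      have h2 : ∀ z, ∑ i, fE e w z (i + 0) * fX x y z i = 2 ^ m * (mu w z * fX x y z 0) := by
        intro z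
        rw [Finset.sum_congr rfl (fun i _ => by rw [hconst y z i]), ← Finset.sum_mul]
        have h3 : ∑ i, fE e w z (i + 0) = 2 ^ m * mu w z := by
          rw [← UU_fourier mu w z]
          simp only [fE]
          rw [Finset.sum_comm]
          refine Finset.sum_congr rfl fun b _ => ?_
          rw [← Finset.sum_mul, hsum]
        rw [h3, mul_assoc]
      rw [Finset.sum_congr rfl (fun z _ => h2 z), ← Finset.mul_sum] at h1
      exact (mul_eq_zero.1 h1).resolve_left (by positivity)
    obtain ⟨y, hy⟩ : ∃ y, fX x y z0 0 ≠ 0 := by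
      by_contra hcon
      push Not at hcon
      obtain ⟨a, b, i, hab⟩ := hne
      have h1 := fX_inv x a b i
      have h2 : ∀ z, fX x (z + a) z i * sg (b ⬝ᵥ z) = 0 := by
        intro z
        rw [hconst, hkery, hcon, mul_zero, zero_mul]
      rw [Finset.sum_eq_zero (fun z _ => h2 z)] at h1
      exact hab ((mul_eq_zero.1 h1.symm).resolve_left (by positivity))
    have h1 : B ≤ |fX x y z1 0| := by
      rw [hkery y z1, abs_mul, hz1]
      exact le_mul_of_one_le_right hB.le (Int.one_le_abs hy)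
    have h2 : |fX x y z1 0| ≤ ∑ b, |x (z1 + y) b 0| := by
      rw [fX]
      refine (Finset.abs_sum_le_sum_abs _ _).trans (le_of_eq ?_)
      refine Finset.sum_congr rfl fun b _ => ?_
      rw [abs_mul, abs_sg, mul_one]
    by_contra hcon
    push Not at hcon
    have h3 : (2 : ℤ) ^ m * ∑ b, |x (z1 + y) b 0| < 2 ^ m * B := by
      rw [Finset.mul_sum]
      calc ∑ b, 2 ^ m * |x (z1 + y) b 0| < ∑ _b : VV m, B :=
            Finset.sum_lt_sum_of_nonempty Finset.univ_nonempty fun b _ => hcon _ _ _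
        _ = _ := by
            rw [Finset.sum_const, Finset.card_univ, Fintype.card_fun, ZMod.card, Fintype.card_fin,
              nsmul_eq_mul]
            push_cast
            rfl
    have h4 := lt_of_mul_lt_mul_left h3 (by positivity)
    linarith [h1.trans h2]
  · -- a relation
    refine ⟨fun a b _ => sg (b ⬝ᵥ a) * kap a, fun a' b' i' => ?_, ?_, fun a b i => ?_⟩
    · have h1 : ∀ a, ∑ b : VV m, ∑ i : ZMod n, (sg (b ⬝ᵥ a) * kap a) * sg (b' ⬝ᵥ a) *
          e (a + a') (b + b') (i + i') = 2 ^ m * (mu a' a * kap a) := by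
        intro a
        have h2 : ∀ b : VV m, ∑ i : ZMod n, (sg (b ⬝ᵥ a) * kap a) * sg (b' ⬝ᵥ a) *
            e (a + a') (b + b') (i + i') = kap a * (UU mu (a + a') (b + b') *
              sg ((b + b') ⬝ᵥ a)) := by
          intro b
          rw [← Finset.mul_sum, hsum, add_dotProduct, sg_add]
          ring
        rw [Finset.sum_congr rfl (fun b _ => h2 b), ← Finset.mul_sum]
        have h3 : ∑ b, UU mu (a + a') (b + b') * sg ((b + b') ⬝ᵥ a) =
            ∑ b, UU mu (a + a') b * sg (b ⬝ᵥ a) :=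
          Fintype.sum_equiv (Equiv.addRight b') _ _ fun b => rfl
        rw [h3, UU_fourier]
        ring
      rw [Finset.sum_congr rfl (fun a _ => h1 a), ← Finset.mul_sum, hkap, mul_zero]
    · refine ⟨z1, 0, 0, ?_⟩
      change sg ((0 : VV m) ⬝ᵥ z1) * kap z1 ≠ 0
      rw [zero_dotProduct, sg_zero, one_mul]
      exact hkz1
    · rw [abs_mul, abs_sg, one_mul]
      exact hkB a

end gen

section field

variable {m n : ℕ} [NeZero n]

theorem transfer_sum {F : Type} [Field F] [Fintype F] (e : VV m ≃+ F) (f : F → ℤ) :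
    ∑ z : VV m, f (e z) = ∑ z, f z := Equiv.sum_comp e.toEquiv f

/-- The core over a field with a generator of the multiplicative group. -/
theorem core_field (hn : Odd n) (hn3 : 3 ≤ n) {F : Type} [Field F] [Fintype F] [DecidableEq F]
    [CharP F 2] (e : VV m ≃+ F) (θ : F) (q : ℕ) (hq : 2 ≤ q) (hθq : θ ^ q = 1)
    (hmin : ∀ j, 0 < j → j < q → θ ^ j ≠ 1) (hgen : ∀ x : F, x ≠ 0 → ∃ j < q, θ ^ j = x) :
    ∃ ee : VV m → VV m → ZMod n → ℤ, (∀ a b i, ee a b i = 1 ∨ ee a b i = -1) ∧
      (∀ x, Rel ee x → (∃ a b i, x a b i ≠ 0) →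
        ∃ a b i, ((n : ℤ) - 1) ^ (q - 1) ≤ 2 ^ m * |x a b i|) ∧
      ∃ x, Rel ee x ∧ (∃ a b i, x a b i ≠ 0) ∧ ∀ a b i, |x a b i| ≤ ((n : ℤ) - 1) ^ (q - 1) := by
  classical
  have h0 : θ ≠ 0 := by
    rintro rfl
    rw [zero_pow (by omega)] at hθq
    exact zero_ne_one hθq
  have h1 : θ + 1 ≠ 0 := by
    intro h
    have h2 : θ = 1 := CharTwo.add_eq_zero.1 h
    exact hmin 1 one_pos (by omega) (by rw [h2, one_pow])
  set t : ℤ := (n : ℤ) - 1 with ht
  have ht2 : 2 ≤ t := by omega
  -- discrete logarithms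
  choose! dl hdl1 hdl2 using hgen
  have hinj : ∀ i j, i < q → j < q → θ ^ i = θ ^ j → i = j := by
    have key : ∀ i j, i ≤ j → j < q → θ ^ i = θ ^ j → i = j := by
      intro i j hij hj h
      by_contra hne
      refine hmin (j - i) (by omega) (by omega) ?_
      have h2 : θ ^ j = θ ^ i * θ ^ (j - i) := by
        rw [← pow_add]
        congr 1
        omega
      rw [h2] at h
      have h3 := mul_left_cancel₀ (pow_ne_zero i h0) ((mul_one (θ ^ i)).trans h)
      exact h3.symm
    intro i j hi hj h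
    rcases le_total i j with hij | hij
    · exact key i j hij hj h
    · exact (key j i hij hi h.symm).symm
  let kF : F → ℤ := fun z => if z = 0 then -t ^ (dl (θ + 1)) else t ^ (dl z)
  have hkF : ∀ j < q, kF (θ ^ j) = t ^ j := by
    intro j hj
    have h2 := pow_ne_zero j h0
    simp only [kF]
    rw [if_neg h2]
    congr 1
    exact hinj _ _ (hdl1 _ h2) hj (hdl2 _ h2)
  have hkabs : ∀ z, |kF z| ≤ t ^ (q - 1) := by
    intro z
    have h3 : ∀ x : F, x ≠ 0 → t ^ (dl x) ≤ t ^ (q - 1) := fun x hx =>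
      pow_le_pow_right₀ (by omega) (by have := hdl1 x hx; omega)
    simp only [kF]
    split_ifs with hz
    · rw [abs_neg, abs_of_pos (by positivity)]
      exact h3 _ h1
    · rw [abs_of_pos (by positivity)]
      exact h3 _ hz
  -- the steps
  have hstep : ∀ X : F → ℤ, (∀ w, ∑ z, mF θ t w z * X z = 0) →
      ∀ u, u ≠ 0 → θ * u ≠ 1 → X (θ * u) = t * X u := by
    intro X hX u hu hne
    have h2 := hX (θ ^ 2 * u)
    rw [row_succ θ t h0 X u hu, if_neg hne] at h2
    linarith
  have hkerF : ∀ X : F → ℤ, (∀ w, ∑ z, mF θ t w z * X z = 0) → ∀ z, X z = kF z * X 1 := by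
    intro X hX
    have h2 : ∀ j < q, X (θ ^ j) = t ^ j * X 1 := by
      intro j
      induction j with
      | zero =>
        intro _
        rw [pow_zero, pow_zero, one_mul]
      | succ j ih =>
        intro hj
        have h3 : θ ^ (j + 1) = θ * θ ^ j := by
          rw [pow_succ, mul_comm]
        rw [h3, hstep X hX (θ ^ j) (pow_ne_zero j h0) (by
          rw [← h3]
          exact hmin (j + 1) (by omega) hj), ih (by omega), pow_succ]
        ring
    have h3 : ∀ z, z ≠ 0 → X z = t ^ (dl z) * X 1 := by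
      intro z hz
      have h4 := h2 (dl z) (hdl1 z hz)
      rwa [hdl2 z hz] at h4
    intro z
    by_cases hz : z = 0
    · have h4 := hX 0
      rw [row_zero θ t h0 X, h3 _ h1] at h4
      simp only [kF]
      rw [if_pos hz, hz]
      linarith
    · simp only [kF]
      rw [if_neg hz]
      exact h3 z hz
  have hkapF : ∀ w, ∑ z, mF θ t w z * kF z = 0 := by
    intro w
    by_cases hw : w = 0
    · rw [hw, row_zero θ t h0]
      simp only [kF]
      rw [if_pos trivial, if_neg h1]
      ring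
    · set u : F := (θ ^ 2)⁻¹ * w with hu
      have hu0 : u ≠ 0 := mul_ne_zero (inv_ne_zero (pow_ne_zero 2 h0)) hw
      have hwu : w = θ ^ 2 * u := by
        rw [hu, mul_inv_cancel_left₀ (pow_ne_zero 2 h0)]
      rw [hwu, row_succ θ t h0 kF u hu0]
      split_ifs with h2
      · rfl
      · have h3 := hdl1 u hu0
        have h4 := hdl2 u hu0
        have h5 : dl u + 1 < q := by
          by_contra h6
          apply h2
          have h7 : dl u + 1 = q := by omega
          rw [← h4]
          have h8 : θ * θ ^ (dl u) = θ ^ (dl u + 1) := by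
            rw [pow_succ, mul_comm]
          rw [h8, h7, hθq]
        have h6 : θ * u = θ ^ (dl u + 1) := by
          rw [pow_succ, h4, mul_comm]
        have h7 : kF u = t ^ (dl u) := by
          have h8 := hkF (dl u) h3
          rwa [h4] at h8
        rw [h6, hkF _ h5, h7, pow_succ]
        ring
  -- transport
  let mu : VV m → VV m → ℤ := fun w z => mF θ t (e w) (e z)
  have hUU : ∀ a b, UU mu a b = ∑ z, mF θ t (z + e a) z * sg (b ⬝ᵥ e.symm z) := by
    intro a b
    rw [← transfer_sum e]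
    unfold UU
    refine Finset.sum_congr rfl fun z _ => ?_
    simp only [mu, map_add, AddEquiv.symm_apply_apply]
  have hUUeq : ∀ a b, ∃ x y : ℤ, (x = 0 ∨ x = 1 ∨ x = -1) ∧ (y = 1 ∨ y = -1) ∧
      UU mu a b = t * x + y := by
    intro a b
    rw [hUU]
    exact diag_sum_eq θ t h1 (fun z => sg (b ⬝ᵥ e.symm z)) (fun z => sg_eq _) (e a)
  refine core_gen hn mu (fun z => kF (e z)) (t ^ (q - 1)) (by positivity) ?_ ?_ ?_ ?_
    (e.symm 1) (e.symm (θ ^ (q - 1))) ?_ (fun z => hkabs _) ?_
  · intro a b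
    obtain ⟨x, y, hx, hy, h2⟩ := hUUeq a b
    rw [h2]
    obtain ⟨k, hk⟩ := hn
    have h3 : t = 2 * k := by omega
    rw [h3]
    rcases hy with rfl | rfl
    · exact ⟨k * x, by ring⟩
    · exact ⟨k * x - 1, by ring⟩
  · intro a b
    obtain ⟨x, y, hx, hy, h2⟩ := hUUeq a b
    rw [h2, abs_le]
    rcases hx with rfl | rfl | rfl <;> rcases hy with rfl | rfl <;> constructor <;> omega
  · have h2 : ∑ w, mu w 0 = ∑ w, mF θ t w 0 := by
      rw [← transfer_sum e]
      simp only [mu, map_zero]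
    rw [h2, col_zero θ t h1]
  · intro w
    have h2 : ∑ z, mu w z * kF (e z) = ∑ z, mF θ t (e w) z * kF z := by
      rw [← transfer_sum e]
    rw [h2, hkapF]
  · rw [AddEquiv.apply_symm_apply, hkF _ (by omega), abs_of_pos (by positivity)]
  · intro X hX z
    have h2 := hkerF (fun z => X (e.symm z)) (fun w => by
      rw [← transfer_sum e]
      have h3 := hX (e.symm w)
      simp only [mu, AddEquiv.apply_symm_apply] at h3
      simp only [AddEquiv.symm_apply_apply]
      exact h3) (e z)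
    simp only [AddEquiv.symm_apply_apply] at h2
    exact h2

/-- **Sign functions with only long relations**, on Heisenberg groups times a cyclic group of odd
order `n ≥ 3`. -/
theorem core2 (hm : 2 ≤ m) (hn : Odd n) (hn3 : 3 ≤ n) :
    ∃ ee : VV m → VV m → ZMod n → ℤ, (∀ a b i, ee a b i = 1 ∨ ee a b i = -1) ∧
      (∀ x, Rel ee x → (∃ a b i, x a b i ≠ 0) →
        ∃ a b i, ((n : ℤ) - 1) ^ (2 ^ m - 2) ≤ 2 ^ m * |x a b i|) ∧
      ∃ x, Rel ee x ∧ (∃ a b i, x a b i ≠ 0) ∧ ∀ a b i, |x a b i| ≤ ((n : ℤ) - 1) ^ (2 ^ m - 2) := by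
  classical
  have : Fact (Nat.Prime 2) := ⟨Nat.prime_two⟩
  have h4 : 4 ≤ 2 ^ m := by
    calc 4 = 2 ^ 2 := by norm_num
      _ ≤ 2 ^ m := Nat.pow_le_pow_right (by norm_num) hm
  let F := GaloisField 2 m
  have hcardF : Nat.card F = 2 ^ m := GaloisField.card 2 m (by omega)
  have hfin : Finite F := Nat.finite_of_card_ne_zero (by rw [hcardF]; positivity)
  let _ : Fintype F := Fintype.ofFinite F
  let eL : VV m ≃ₗ[ZMod 2] F := LinearEquiv.ofFinrankEq _ _ (by
    rw [Module.finrank_fin_fun, GaloisField.finrank 2 (by omega)])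
  obtain ⟨g, hg⟩ := IsCyclic.exists_generator (α := Fˣ)
  have hordg : orderOf g = 2 ^ m - 1 := by
    rw [orderOf_eq_card_of_forall_mem_zpowers hg, Nat.card_units, hcardF]
  have hpos : 0 < orderOf g := by omega
  have h5 := core_field (m := m) hn hn3 eL.toAddEquiv (g : F) (2 ^ m - 1) (by omega) ?_ ?_ ?_
  · have h6 : 2 ^ m - 1 - 1 = 2 ^ m - 2 := by omega
    rw [h6] at h5
    exact h5
  · rw [← Units.val_pow_eq_pow_val, ← hordg, pow_orderOf_eq_one, Units.val_one]
  · intro j hj1 hj2 h
    rw [← Units.val_pow_eq_pow_val, ← Units.val_one, Units.val_inj] at h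
    have := Nat.le_of_dvd hj1 (orderOf_dvd_of_pow_eq_one h)
    omega
  · intro x hx
    obtain ⟨k, hk⟩ := hg (Units.mk0 x hx)
    have h8 : (Units.mk0 x hx) ∈ Submonoid.powers g :=
      mem_powers_iff_mem_zpowers.2 ⟨k, hk⟩
    obtain ⟨j, hj⟩ := h8
    refine ⟨j % orderOf g, ?_, ?_⟩
    · rw [← hordg]
      exact Nat.mod_lt _ hpos
    · have h9 : g ^ (j % orderOf g) = Units.mk0 x hx := by
        rw [pow_mod_orderOf]
        exact hj
      have h10 := congrArg Units.val h9
      rw [Units.val_pow_eq_pow_val, Units.val_mk0] at h10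
      exact h10

end field

end Pool.Agent.N90.HE
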