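import Mathlib

/-!
# Circulant systems over the group ring of a cyclic group of odd order: descent by two
-/

set_option autoImplicit false
set_option linter.unusedSectionVars false

namespace Pool.Agent.N90.HE

open Finset

section char2

variable {S : Type*} [CommRing S] [CharP S 2] {V : Type*} [AddCommGroup V] [Fintype V]

/-- A symmetric circulant matrix of an elementary abelian 2-group in characteristic two has the
square `(sum of the entries)^2`. -/
theorem circ_sq (hV : ∀ a : V, a + a = 0) (t : V → S) (y : V → S)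
    (h : ∀ w, ∑ z, t (z + w) * y z = 0) (v : V) : (∑ a, t a) ^ 2 * y v = 0 := by
  classical
  have h1 : ∑ w, t (w + v) * ∑ z, t (z + w) * y z = 0 :=
    Finset.sum_eq_zero fun w _ => by rw [h w, mul_zero]
  have h2 : ∑ w, t (w + v) * ∑ z, t (z + w) * y z = ∑ z, (∑ w, t (w + v) * t (z + w)) * y z := by
    simp only [Finset.mul_sum, Finset.sum_mul]
    rw [Finset.sum_comm]
    refine Finset.sum_congr rfl fun z _ => Finset.sum_congr rfl fun w _ => by ring
  have h3 : ∀ z, z ≠ v → ∑ w, t (w + v) * t (z + w) = 0 := by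
    intro z hz
    refine Finset.sum_involution (fun w _ => w + v + z) ?_ ?_ ?_ ?_
    · intro w _
      have e1 : w + v + z + v = z + w := by
        calc w + v + z + v = z + w + (v + v) := by abel
          _ = z + w := by rw [hV, add_zero]
      have e2 : z + (w + v + z) = w + v := by
        calc z + (w + v + z) = w + v + (z + z) := by abel
          _ = w + v := by rw [hV, add_zero]
      rw [e1, e2, mul_comm (t (z + w))]
      exact CharTwo.add_self_eq_zero _
    · intro w _ _ hw
      apply hz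
      have : v + z = 0 := by
        have h4 : w + (v + z) = w + 0 := by rw [← add_assoc, hw, add_zero]
        exact add_left_cancel h4
      calc z = z + (v + v) := by rw [hV, add_zero]
        _ = (v + z) + v := by abel
        _ = v := by rw [this, zero_add]
    · intro w _
      exact Finset.mem_univ _
    · intro w _
      calc w + v + z + v + z = w + (v + v) + (z + z) := by abel
        _ = w := by rw [hV, hV, add_zero, add_zero]
  have h4 : ∑ z, (∑ w, t (w + v) * t (z + w)) * y z = (∑ w, t (w + v) * t (v + w)) * y v := by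
    rw [Finset.sum_eq_single v]
    · intro z _ hz
      rw [h3 z hz, zero_mul]
    · intro hv
      exact absurd (Finset.mem_univ _) hv
  have h5 : ∑ w, t (w + v) * t (v + w) = (∑ a, t a) ^ 2 := by
    have e : ∑ w, t (w + v) * t (v + w) = ∑ a, t a ^ 2 := by
      refine Fintype.sum_equiv (Equiv.addRight v) _ _ fun w => ?_
      rw [Equiv.coe_addRight, add_comm v w, sq]
    rw [e, CharTwo.sum_sq]
  rw [← h5, ← h4, ← h2, h1]

/-- The cyclotomic step. -/
theorem cyc_step {n L : ℕ} (hn : Odd n) (hL : L.Coprime n) (g : S) (hg : g ^ n = 1) (τ y : S)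
    (hτ : (1 - g) * τ = 1 - g ^ L) (h : τ ^ 2 * y = 0) (hN : (∑ i ∈ range n, g ^ i) * y = 0) :
    y = 0 := by
  have h1 : (1 - g ^ (2 * L)) * y = 0 := by
    have h2 : (1 - g ^ (2 * L)) = (1 - g) ^ 2 * τ ^ 2 := by
      rw [← mul_pow, hτ, sub_sq, one_pow, mul_one, ← pow_mul, mul_comm L 2]
      have h3 : (2 : S) = 0 := CharTwo.two_eq_zero
      rw [h3, zero_mul, sub_zero]
      have h4 : ∀ a : S, 1 - a = 1 + a := fun a => CharTwo.sub_eq_add 1 a
      rw [h4]
    rw [h2, mul_assoc, h, mul_zero]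
  have hc : (2 * L).Coprime n := Nat.Coprime.mul_left (Nat.Coprime.symm hn.coprime_two_right) hL
  obtain ⟨s, hs⟩ : ∃ s : ℕ, (2 * L * s) % n = 1 % n := by
    by_cases h1n : 1 < n
    · obtain ⟨s, -, hs⟩ := Nat.exists_mul_mod_eq_one_of_coprime hc h1n
      exact ⟨s, by rw [hs, Nat.mod_eq_of_lt h1n]⟩
    · have : n = 1 := by
        obtain ⟨k, hk⟩ := hn
        omega
      subst this
      exact ⟨0, by rw [Nat.mod_one, Nat.mod_one]⟩
  have h2 : (1 - g) * y = 0 := by
    have h3 : g = (g ^ (2 * L)) ^ s := by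
      rw [← pow_mul]
      have h4 : g ^ (2 * L * s) = g ^ (2 * L * s % n) := by
        conv_lhs => rw [← Nat.mod_add_div (2 * L * s) n, pow_add, pow_mul, hg, one_pow, mul_one]
      have h5 : g ^ 1 = g ^ (1 % n) := by
        conv_lhs => rw [← Nat.mod_add_div 1 n, pow_add, pow_mul, hg, one_pow, mul_one]
      rw [h4, hs, ← h5, pow_one]
    obtain ⟨c, hc⟩ : (1 - g ^ (2 * L)) ∣ (1 - g) := by
      conv_rhs => rw [h3]
      have := sub_dvd_pow_sub_pow (1 : S) (g ^ (2 * L)) s
      rwa [one_pow] at this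
    rw [hc, mul_assoc, mul_comm c, ← mul_assoc, h1, zero_mul]
  have h3 : g * y = y := by
    rw [sub_mul, one_mul, sub_eq_zero] at h2
    exact h2.symm
  have h4 : ∀ i : ℕ, g ^ i * y = y := by
    intro i
    induction i with
    | zero => rw [pow_zero, one_mul]
    | succ i ih => rw [pow_succ, mul_assoc, h3, ih]
  rw [Finset.sum_mul, Finset.sum_congr rfl (fun i _ => h4 i), Finset.sum_const, card_range,
    nsmul_eq_mul] at hN
  obtain ⟨k, rfl⟩ := hn
  have h5 : ((2 * k + 1 : ℕ) : S) = 1 := by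
    push_cast
    rw [CharTwo.two_eq_zero, zero_mul, zero_add]
  rwa [h5, one_mul] at hN

end char2

section descent

variable {S : Type*} [CommRing S] {V : Type*} [AddCommGroup V] [Fintype V]

/-- The combination of the two steps, in a ring with `2 = 0`. -/
theorem two_step (h2 : (2 : S) = 0) (hV : ∀ a : V, a + a = 0) {n L : ℕ} (hn : Odd n)
    (hL : L.Coprime n) (g : S) (hg : g ^ n = 1) (t : V → S) (hτ : (1 - g) * ∑ a, t a = 1 - g ^ L)
    (y : V → S) (h : ∀ w, ∑ z, t (z + w) * y z = 0)
    (hN : ∀ z, (∑ i ∈ range n, g ^ i) * y z = 0) (v : V) : y v = 0 := by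
  rcases subsingleton_or_nontrivial S with hS | hS
  · exact Subsingleton.elim _ _
  · have : CharP S 2 := CharTwo.of_one_ne_zero_of_two_eq_zero one_ne_zero h2
    exact cyc_step hn hL g hg _ _ hτ (circ_sq hV t y h v) (hN v)

/-- the group ring of the cyclic group of order `n` -/
abbrev GR (n : ℕ) : Type := AddMonoidAlgebra ℤ (ZMod n)

variable {n : ℕ} [NeZero n]

/-- the generator -/
noncomputable def gen (n : ℕ) : GR n := AddMonoidAlgebra.single 1 1

theorem gen_pow (i : ℕ) : gen n ^ i = AddMonoidAlgebra.single (i : ZMod n) 1 := by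
  rw [gen, AddMonoidAlgebra.single_pow, one_pow, nsmul_eq_mul, mul_one]

theorem gen_pow_n : gen n ^ n = 1 := by
  rw [gen_pow, ZMod.natCast_self]
  rfl

theorem two_mul_inj {x : GR n} (h : 2 * x = 0) : x = 0 := by
  ext i
  have h1 := congrArg (fun y => AddMonoidAlgebra.coeff y i) h
  simp only [two_mul, AddMonoidAlgebra.coeff_add, AddMonoidAlgebra.coeff_zero, Finsupp.coe_add,
    Finsupp.coe_zero, Pi.add_apply, Pi.zero_apply] at h1 ⊢
  omega

theorem descend (hV : ∀ a : V, a + a = 0) {L : ℕ} (hn : Odd n) (hL : L.Coprime n)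
    (T' : V → V → GR n) (t : V → GR n) (hT' : ∀ w z, (2 : GR n) ∣ T' w z - t (z + w))
    (hτ : (1 - gen n) * ∑ a, t a = 1 - gen n ^ L)
    (y : V → GR n) (h : ∀ w, ∑ z, T' w z * y z = 0)
    (hN : ∀ z, (∑ i ∈ range n, gen n ^ i) * y z = 0) : ∃ y' : V → GR n, (∀ z, y z = 2 * y' z) ∧
      (∀ w, ∑ z, T' w z * y' z = 0) ∧ ∀ z, (∑ i ∈ range n, gen n ^ i) * y' z = 0 := by
  set q := Ideal.Quotient.mk (Ideal.span {(2 : GR n)}) with hq
  have hq2 : q 2 = 0 := Ideal.Quotient.eq_zero_iff_mem.2 (Ideal.mem_span_singleton_self _)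
  have h1 : ∀ v, q (y v) = 0 := by
    refine two_step (by rw [← map_ofNat q 2]; exact hq2) hV hn hL (q (gen n))
      (by rw [← map_pow, gen_pow_n, map_one]) (fun a => q (t a)) ?_ (fun z => q (y z)) ?_ ?_
    · rw [← map_sum, ← map_one q, ← map_sub, ← map_mul, hτ, map_sub, map_pow]
    · intro w
      have h3 := congrArg q (h w)
      rw [map_sum, map_zero] at h3
      rw [← h3]
      refine Finset.sum_congr rfl fun z _ => ?_
      rw [map_mul]
      congr 1
      have h4 : q (T' w z - t (z + w)) = 0 :=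
        Ideal.Quotient.eq_zero_iff_mem.2 (Ideal.mem_span_singleton.2 (hT' w z))
      rw [map_sub, sub_eq_zero] at h4
      exact h4.symm
    · intro z
      have h3 := congrArg q (hN z)
      rw [map_mul, map_sum, map_zero] at h3
      simpa only [map_pow] using h3
  have h2 : ∀ v, ∃ c, y v = 2 * c := fun v =>
    Ideal.mem_span_singleton.1 (Ideal.Quotient.eq_zero_iff_mem.1 (h1 v))
  choose y' hy' using h2
  refine ⟨y', hy', fun w => two_mul_inj ?_, fun z => two_mul_inj ?_⟩
  · rw [← h w, Finset.mul_sum]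
    refine Finset.sum_congr rfl fun z _ => ?_
    rw [hy' z]
    ring
  · rw [← hN z, hy' z]
    ring

/-- **Descent.** -/
theorem eq_zero_of_system (hV : ∀ a : V, a + a = 0) {L : ℕ} (hn : Odd n) (hL : L.Coprime n)
    (T' : V → V → GR n) (t : V → GR n) (hT' : ∀ w z, (2 : GR n) ∣ T' w z - t (z + w))
    (hτ : (1 - gen n) * ∑ a, t a = 1 - gen n ^ L)
    (y : V → GR n) (h : ∀ w, ∑ z, T' w z * y z = 0)
    (hN : ∀ z, (∑ i ∈ range n, gen n ^ i) * y z = 0) (v : V) : y v = 0 := by
  have h1 : ∀ k : ℕ, ∀ y : V → GR n, (∀ w, ∑ z, T' w z * y z = 0) →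
      (∀ z, (∑ i ∈ range n, gen n ^ i) * y z = 0) → ∀ v, (2 ^ k : GR n) ∣ y v := by
    intro k
    induction k with
    | zero => exact fun y _ _ v => by rw [pow_zero]; exact one_dvd _
    | succ k ih =>
      intro y hy1 hy2 v
      obtain ⟨y', h3, h4, h5⟩ := descend hV hn hL T' t hT' hτ y hy1 hy2
      rw [h3 v, pow_succ, mul_comm]
      exact mul_dvd_mul_left _ (ih y' h4 h5 v)
  ext i
  have h2 : ∀ k : ℕ, (2 ^ k : ℤ) ∣ (y v).coeff i := by
    intro k
    obtain ⟨c, hc⟩ := h1 k y h hN v
    refine ⟨c.coeff i, ?_⟩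
    have h3 : (2 ^ k : GR n) = AddMonoidAlgebra.single 0 (2 ^ k) := by
      have h4 : (AddMonoidAlgebra.single 0 2 : GR n) = 2 := by
        rw [← one_add_one_eq_two, ← one_add_one_eq_two (R := GR n), AddMonoidAlgebra.single_add]
        rfl
      rw [← h4, AddMonoidAlgebra.single_pow, smul_zero]
    rw [hc, h3, AddMonoidAlgebra.coeff_single_mul_apply, neg_zero, zero_add]
  change (y v).coeff i = 0
  by_contra hne
  obtain ⟨k, hk⟩ := pow_unbounded_of_one_lt |(y v).coeff i| (by norm_num : (1 : ℤ) < 2)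
  exact absurd (Int.le_of_dvd (abs_pos.2 hne) ((dvd_abs _ _).2 (h2 k))) (not_le.2 hk)

end descent

end Pool.Agent.N90.HE
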