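import Pool.Agent.N90.HE.Conv

/-!
# Weights with only long relations
-/

set_option autoImplicit false
set_option linter.unusedSectionVars false

namespace Pool.Agent.N90.HE

open Finset

section arcs

variable {n : ℕ} [NeZero n]

/-- the arc of length `k` that starts at `s` -/
def arc (n s k : ℕ) : Finset (ZMod n) := (range k).image fun i => ((s + i : ℕ) : ZMod n)

theorem arc_inj {s k : ℕ} (hk : k ≤ n) :
    Set.InjOn (fun i : ℕ => ((s + i : ℕ) : ZMod n)) (range k : Set ℕ) := by
  intro i hi j hj hij
  rw [Finset.coe_range, Set.mem_Iio] at hi hj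
  simp only [Nat.cast_add, add_right_inj] at hij
  have h := (ZMod.natCast_eq_natCast_iff' _ _ _).1 hij
  rwa [Nat.mod_eq_of_lt (by omega), Nat.mod_eq_of_lt (by omega)] at h

theorem card_arc {s k : ℕ} (hk : k ≤ n) : (arc n s k).card = k := by
  rw [arc, Finset.card_image_of_injOn (arc_inj hk), card_range]

theorem elS_arc {s k : ℕ} (hk : k ≤ n) :
    (1 - gen n) * elS (arc n s k) = gen n ^ s * (1 - gen n ^ k) := by
  rw [elS, arc, Finset.sum_image (arc_inj hk)]
  have h : ∀ i ∈ range k, (AddMonoidAlgebra.single ((s + i : ℕ) : ZMod n) 1 : GR n) =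
      gen n ^ s * gen n ^ i := by
    intro i _
    rw [← pow_add, gen_pow]
  rw [Finset.sum_congr rfl h, ← Finset.mul_sum, mul_left_comm, mul_neg_geom_sum]

theorem exists_arcs {ι : Type*} [DecidableEq ι] (t : ι → ℕ) (ht : ∀ j, t j ≤ n) (S : Finset ι) :
    ∀ s : ℕ, ∃ T : ι → Finset (ZMod n), (∀ j ∈ S, (T j).card = t j) ∧
      (1 - gen n) * ∑ j ∈ S, elS (T j) = gen n ^ s * (1 - gen n ^ (∑ j ∈ S, t j)) := by
  classical
  induction S using Finset.induction_on with
  | empty =>
    intro s
    exact ⟨fun _ => ∅, fun j hj => absurd hj (Finset.notMem_empty j), by simp⟩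
  | insert j S hj ih =>
    intro s
    obtain ⟨T, h1, h2⟩ := ih (s + t j)
    refine ⟨Function.update T j (arc n s (t j)), ?_, ?_⟩
    · intro j' hj'
      by_cases h : j' = j
      · subst h
        rw [Function.update_self, card_arc (ht _)]
      · rw [Function.update_of_ne h]
        exact h1 j' (Finset.mem_of_mem_insert_of_ne hj' h)
    · rw [Finset.sum_insert hj, Finset.sum_insert hj, Function.update_self, mul_add,
        elS_arc (ht j)]
      have h3 : ∑ x ∈ S, elS (Function.update T j (arc n s (t j)) x) = ∑ x ∈ S, elS (T x) := by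
        refine Finset.sum_congr rfl fun x hx => ?_
        rw [Function.update_of_ne]
        rintro rfl
        exact hj hx
      rw [h3, h2, pow_add, pow_add]
      ring

end arcs

section matrix

variable {m : ℕ}

theorem exists_idx (m : ℕ) : ∃ idx : VV m ≃ Fin (2 ^ m), ((idx 0 : Fin (2 ^ m)) : ℕ) = 0 := by
  have hc : Fintype.card (VV m) = 2 ^ m := by
    rw [Fintype.card_fun, ZMod.card, Fintype.card_fin]
  let e0 := Fintype.equivFinOfCardEq hc
  have hpos : 0 < 2 ^ m := by positivity
  refine ⟨e0.trans (Equiv.swap (e0 0) ⟨0, hpos⟩), ?_⟩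
  rw [Equiv.trans_apply, Equiv.swap_apply_left]

/-- the matrix with the kernel `2 ^ idx` -/
def mm (idx : VV m ≃ Fin (2 ^ m)) (w z : VV m) : ℤ :=
  if w = 0 then (if z = 0 then 0 else 1) - 2 * (if (idx z : ℕ) + 1 < 2 ^ m then 1 else 0)
  else (if (idx w : ℕ) = 1 then 1 else 2) *
    ((if z = w then 1 else 0) - 2 * (if (idx z : ℕ) + 1 = idx w then 1 else 0))

/-- the sums of the weights -/
def uu (idx : VV m ≃ Fin (2 ^ m)) (a b : VV m) : ℤ := ∑ z, mm idx (z + a) z * sg (b ⬝ᵥ z)

theorem abs_mm (idx : VV m ≃ Fin (2 ^ m)) (w z : VV m) : |mm idx w z| ≤ 4 := by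
  unfold mm
  by_cases hw : w = 0
  · rw [if_pos hw]
    split_ifs <;> norm_num
  · rw [if_neg hw]
    by_cases h1 : z = w
    · have h2 : ¬ ((idx z : ℕ) + 1 = idx w) := by
        rw [h1]
        omega
      rw [if_pos h1, if_neg h2]
      split_ifs <;> norm_num
    · rw [if_neg h1]
      split_ifs <;> norm_num

theorem abs_uu (idx : VV m ≃ Fin (2 ^ m)) (a b : VV m) : |uu idx a b| ≤ 4 * 2 ^ m := by
  unfold uu
  refine (Finset.abs_sum_le_sum_abs _ _).trans ?_
  calc ∑ z, |mm idx (z + a) z * sg (b ⬝ᵥ z)| ≤ ∑ _z : VV m, (4 : ℤ) := by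
        refine Finset.sum_le_sum fun z _ => ?_
        rw [abs_mul, abs_sg, mul_one]
        exact abs_mm idx _ _
    _ = 4 * 2 ^ m := by
        rw [Finset.sum_const, Finset.card_univ, Fintype.card_fun, ZMod.card, Fintype.card_fin,
          nsmul_eq_mul]
        push_cast
        ring

/-- Fourier inversion. -/
theorem uu_fourier (idx : VV m ≃ Fin (2 ^ m)) (w z : VV m) :
    ∑ b, uu idx (z + w) b * sg (b ⬝ᵥ z) = 2 ^ m * mm idx w z := by
  classical
  have h1 : ∀ b : VV m, uu idx (z + w) b * sg (b ⬝ᵥ z) =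
      ∑ z', mm idx (z' + (z + w)) z' * sg (b ⬝ᵥ (z' + z)) := by
    intro b
    rw [uu, Finset.sum_mul]
    refine Finset.sum_congr rfl fun z' _ => ?_
    rw [dotProduct_add, sg_add, mul_assoc]
  rw [Finset.sum_congr rfl (fun b _ => h1 b), Finset.sum_comm]
  simp only [← Finset.mul_sum, sum_sg]
  rw [Finset.sum_eq_single z]
  · rw [add_self', if_pos rfl, ← add_assoc, add_self', zero_add, mul_comm]
  · intro z' _ hz'
    rw [if_neg, mul_zero]
    intro h
    apply hz'
    calc z' = z' + (z + z) := by rw [add_self', add_zero]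
      _ = (z' + z) + z := by abel
      _ = z := by rw [h, zero_add]
  · intro h
    exact absurd (Finset.mem_univ _) h

theorem idx_eq (idx : VV m ≃ Fin (2 ^ m)) {z w : VV m} (h : (idx z : ℕ) = idx w) : z = w :=
  idx.injective (Fin.ext h)

theorem exists_idx_eq (idx : VV m ≃ Fin (2 ^ m)) {j : ℕ} (hj : j < 2 ^ m) :
    ∃ z, (idx z : ℕ) = j := ⟨idx.symm ⟨j, hj⟩, by rw [Equiv.apply_symm_apply]⟩

theorem cast_sg (x : ZMod 2) : ((sg x : ℤ) : ZMod 2) = 1 := by
  revert x
  decide

/-- The sums of the weights are odd. -/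
theorem uu_odd (hm : 1 ≤ m) (idx : VV m ≃ Fin (2 ^ m)) (h0 : ((idx 0 : Fin (2 ^ m)) : ℕ) = 0)
    (a b : VV m) : Odd (uu idx a b) := by
  classical
  have h2 : (2 : ZMod 2) = 0 := rfl
  have hk : 2 ≤ 2 ^ m := by
    calc 2 = 2 ^ 1 := (pow_one 2).symm
      _ ≤ 2 ^ m := Nat.pow_le_pow_right (by norm_num) hm
  have key : ((uu idx a b : ℤ) : ZMod 2) = 1 := by
    have h3 : ∀ w z : VV m, ((mm idx w z : ℤ) : ZMod 2) =
        (if w = 0 ∧ z ≠ 0 then 1 else 0) + (if z = w ∧ (idx z : ℕ) = 1 then 1 else 0) := by
      intro w z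
      unfold mm
      by_cases hw : w = 0
      · have h4 : ¬ (z = w ∧ (idx z : ℕ) = 1) := by
          rintro ⟨h5, h6⟩
          rw [h5, hw, h0] at h6
          omega
        rw [if_pos hw, if_neg h4]
        push_cast
        rw [h2, zero_mul, sub_zero, add_zero]
        by_cases hz : z = 0
        · simp [hz]
        · simp [hz, hw]
      · have h4 : ¬ (w = 0 ∧ z ≠ 0) := fun h => hw h.1
        rw [if_neg hw, if_neg h4]
        push_cast
        rw [h2, zero_mul, sub_zero, zero_add]
        by_cases hz : z = w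
        · rw [hz]
          by_cases h5 : (idx w : ℕ) = 1
          · simp [h5]
          · simp [h5]
        · simp [hz]
    rw [uu]
    push_cast
    simp only [cast_sg, mul_one, h3]
    rw [Finset.sum_add_distrib]
    by_cases ha : a = 0
    · subst ha
      obtain ⟨z1, hz1⟩ := exists_idx_eq idx (j := 1) (by omega)
      rw [Finset.sum_eq_zero, zero_add, Finset.sum_eq_single z1]
      · rw [if_pos ⟨(add_zero _).symm, hz1⟩]
      · intro z _ hz
        rw [if_neg]
        rintro ⟨_, h4⟩
        exact hz (idx_eq idx (h4.trans hz1.symm))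
      · intro h
        exact absurd (Finset.mem_univ _) h
      · intro z _
        rw [if_neg]
        rintro ⟨h4, h5⟩
        rw [add_zero] at h4
        exact h5 h4
    · rw [Finset.sum_eq_single a, if_pos ⟨add_self' a, ha⟩, Finset.sum_eq_zero, add_zero]
      · intro z _
        rw [if_neg]
        rintro ⟨h4, _⟩
        apply ha
        have h5 : z + 0 = z + a := by rw [add_zero]; exact h4
        exact (add_left_cancel h5).symm
      · intro z _ hz
        rw [if_neg]
        rintro ⟨h4, _⟩
        apply hz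
        calc z = z + (a + a) := by rw [add_self', add_zero]
          _ = (z + a) + a := by abel
          _ = a := by rw [h4, zero_add]
      · intro h
        exact absurd (Finset.mem_univ _) h
  rw [← Int.not_even_iff_odd, even_iff_two_dvd]
  intro hdvd
  have h4 := (ZMod.intCast_zmod_eq_zero_iff_dvd (uu idx a b) 2).2 (by exact_mod_cast hdvd)
  rw [key] at h4
  exact one_ne_zero h4

/-- The sum of all weights. -/
theorem sum_uu (hm : 1 ≤ m) (idx : VV m ≃ Fin (2 ^ m)) (h0 : ((idx 0 : Fin (2 ^ m)) : ℕ) = 0) :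
    ∑ a, ∑ b, uu idx a b = -(2 ^ (m + 2)) := by
  classical
  have hk : 2 ≤ 2 ^ m := by
    calc 2 = 2 ^ 1 := (pow_one 2).symm
      _ ≤ 2 ^ m := Nat.pow_le_pow_right (by norm_num) hm
  have h1 : ∀ a, ∑ b, uu idx a b = 2 ^ m * mm idx a 0 := by
    intro a
    have h := uu_fourier idx a 0
    rw [← h]
    refine Finset.sum_congr rfl fun b _ => ?_
    rw [dotProduct_zero, sg_zero, mul_one, zero_add]
  rw [Finset.sum_congr rfl (fun a _ => h1 a), ← Finset.mul_sum]
  obtain ⟨z1, hz1⟩ := exists_idx_eq idx (j := 1) (by omega)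
  have hz10 : z1 ≠ 0 := by
    rintro rfl
    omega
  have h2 : ∀ w : VV m, mm idx w 0 = (if w = 0 then -2 else 0) + (if w = z1 then -2 else 0) := by
    intro w
    unfold mm
    by_cases hw : w = 0
    · have : w ≠ z1 := by rw [hw]; exact hz10.symm
      rw [if_pos hw, if_pos hw, if_neg this, if_pos rfl, h0, if_pos (by omega)]
      norm_num
    · have hw' : ¬ ((0 : VV m) = w) := fun h => hw h.symm
      rw [if_neg hw, if_neg hw, if_neg hw', h0]
      by_cases h3 : w = z1
      · rw [if_pos h3, h3, hz1, if_pos rfl, if_pos rfl]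
        norm_num
      · have h4 : ¬ (0 + 1 = (idx w : ℕ)) := by
          intro h5
          apply h3
          apply idx_eq idx
          omega
        rw [if_neg h4, if_neg h3]
        norm_num
  rw [Finset.sum_congr rfl (fun w _ => h2 w), Finset.sum_add_distrib, Finset.sum_ite_eq',
    Finset.sum_ite_eq', if_pos (Finset.mem_univ _), if_pos (Finset.mem_univ _), pow_add]
  ring

/-- The kernel of the matrix. -/
theorem mm_kernel (idx : VV m ≃ Fin (2 ^ m)) (h0 : ((idx 0 : Fin (2 ^ m)) : ℕ) = 0) (X : VV m → ℤ)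
    (h : ∀ w, ∑ z, mm idx w z * X z = 0) (z : VV m) : X z = 2 ^ (idx z : ℕ) * X 0 := by
  classical
  have key : ∀ (j : ℕ) (z : VV m), (idx z : ℕ) = j → X z = 2 ^ j * X 0 := by
    intro j
    induction j with
    | zero =>
      intro z hz
      rw [idx_eq idx (hz.trans h0.symm), pow_zero, one_mul]
    | succ j ih =>
      intro w hw
      have hj : j < 2 ^ m := by
        have := (idx w).2
        omega
      obtain ⟨z', hz'⟩ := exists_idx_eq idx hj
      have hw0 : w ≠ 0 := by
        rintro rfl
        omega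
      have hne : z' ≠ w := by
        rintro rfl
        omega
      have h1 := h w
      have h2 : ∀ z, mm idx w z * X z = (if (idx w : ℕ) = 1 then 1 else 2) *
          ((if z = w then X z else 0) - 2 * (if z = z' then X z else 0)) := by
        intro z
        unfold mm
        rw [if_neg hw0]
        have h3 : ((idx z : ℕ) + 1 = idx w) ↔ z = z' := by
          constructor
          · intro h4
            apply idx_eq idx
            omega
          · rintro rfl
            omega
        simp only [h3]
        by_cases h4 : z = w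
        · by_cases h5 : z = z'
          · exact absurd (h5.symm.trans h4) hne
          · rw [if_pos h4, if_pos h4, if_neg h5, if_neg h5]
            ring
        · by_cases h5 : z = z'
          · rw [if_neg h4, if_neg h4, if_pos h5, if_pos h5]
            ring
          · rw [if_neg h4, if_neg h4, if_neg h5, if_neg h5]
            ring
      rw [Finset.sum_congr rfl (fun z _ => h2 z), ← Finset.mul_sum, Finset.sum_sub_distrib,
        ← Finset.mul_sum, Finset.sum_ite_eq', Finset.sum_ite_eq', if_pos (Finset.mem_univ _),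
        if_pos (Finset.mem_univ _)] at h1
      have h3 : (if (idx w : ℕ) = 1 then (1 : ℤ) else 2) ≠ 0 := by
        split_ifs <;> norm_num
      have h4 := (mul_eq_zero.1 h1).resolve_left h3
      rw [pow_succ, mul_comm (2 ^ j) 2, mul_assoc, ← ih z' hz']
      linarith
  exact key _ z rfl

end matrix

end Pool.Agent.N90.HE
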